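import Mathlib

/-!
Free groups: commutative free groups are cyclic, centres are trivial, residual finiteness.
-/

set_option autoImplicit false

namespace Pool.Agent.PF74

universe u

/-! ### commutative free groups -/

/-- the homomorphism to `ℤ` counting one generator -/
noncomputable def cnt {α : Type*} (a : α) : FreeGroup α →* Multiplicative ℤ := by
  classical
  exact FreeGroup.lift fun x => if x = a then Multiplicative.ofAdd 1 else 1

theorem cnt_self {α : Type*} (a : α) : cnt a (FreeGroup.of a) = Multiplicative.ofAdd 1 := by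
  classical
  unfold cnt
  rw [FreeGroup.lift_apply_of, if_pos rfl]

theorem cnt_ne {α : Type*} {a b : α} (h : b ≠ a) : cnt a (FreeGroup.of b) = 1 := by
  classical
  unfold cnt
  rw [FreeGroup.lift_apply_of, if_neg h]

theorem isCyclic_of_subsingleton {α : Type*} [Subsingleton α] : IsCyclic (FreeGroup α) := by
  rcases isEmpty_or_nonempty α with h | ⟨⟨a⟩⟩
  · infer_instance
  · refine ⟨FreeGroup.of a, fun g => ?_⟩
    change g ∈ Subgroup.zpowers (FreeGroup.of a)
    induction g using FreeGroup.induction_on with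
    | C1 => exact Subgroup.one_mem _
    | of x => rw [Subsingleton.elim x a]; exact Subgroup.mem_zpowers _
    | inv_of x h => exact Subgroup.inv_mem _ h
    | mul x y hx hy => exact Subgroup.mul_mem _ hx hy

theorem subsingleton_of_comm {α : Type*} (h : ∀ a b : FreeGroup α, a * b = b * a) :
    Subsingleton α := by
  classical
  refine ⟨fun x y => ?_⟩
  by_contra hxy
  let f : α → Equiv.Perm (Fin 3) := fun z => if z = x then Equiv.swap 0 1 else Equiv.swap 1 2
  have h1 := congrArg (FreeGroup.lift f) (h (FreeGroup.of x) (FreeGroup.of y))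
  rw [map_mul, map_mul, FreeGroup.lift_apply_of, FreeGroup.lift_apply_of] at h1
  have hx : f x = Equiv.swap 0 1 := if_pos rfl
  have hy : f y = Equiv.swap 1 2 := if_neg (Ne.symm hxy)
  rw [hx, hy] at h1
  exact absurd h1 (by decide)

theorem isCyclic_of_comm {H : Type*} [Group H] [IsFreeGroup H] (h : ∀ a b : H, a * b = b * a) :
    IsCyclic H := by
  let e := IsFreeGroup.toFreeGroup H
  have h1 : Subsingleton (IsFreeGroup.Generators H) := by
    apply subsingleton_of_comm
    intro a b
    apply e.symm.injective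
    rw [map_mul, map_mul, h]
  have h2 : IsCyclic (FreeGroup (IsFreeGroup.Generators H)) := isCyclic_of_subsingleton
  exact (MulEquiv.isCyclic e).2 h2

/-- two commuting elements of a group in which the subgroup they generate is free -/
theorem exists_zpow {G : Type u} [Group G] {x z : G} (hxz : x * z = z * x)
    (hf : IsFreeGroup (Subgroup.closure {x, z} : Subgroup G)) :
    ∃ (c : G) (i j : ℤ), x = c ^ i ∧ z = c ^ j := by
  have hcomm : ∀ a ∈ ({x, z} : Set G), ∀ b ∈ ({x, z} : Set G), a * b = b * a := by
    rintro a (rfl | ha) b (rfl | hb)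
    · rfl
    · rw [Set.mem_singleton_iff.1 hb]; exact hxz
    · rw [Set.mem_singleton_iff.1 ha]; exact hxz.symm
    · rw [Set.mem_singleton_iff.1 ha, Set.mem_singleton_iff.1 hb]
  have hm := Subgroup.isMulCommutative_closure hcomm
  have hc : IsCyclic (Subgroup.closure {x, z} : Subgroup G) :=
    isCyclic_of_comm (fun a b => hm.is_comm.comm a b)
  obtain ⟨⟨c, hc0⟩, hc⟩ := hc
  obtain ⟨i, hi⟩ := hc ⟨x, Subgroup.subset_closure (by simp)⟩
  obtain ⟨j, hj⟩ := hc ⟨z, Subgroup.subset_closure (by simp)⟩
  exact ⟨c, i, j, (congrArg Subtype.val hi).symm, (congrArg Subtype.val hj).symm⟩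

/-- an element commuting with a generator is a power of it -/
theorem mem_zpowers_of_comm {α : Type u} {a : α} {z : FreeGroup α}
    (h : FreeGroup.of a * z = z * FreeGroup.of a) : ∃ m : ℤ, z = FreeGroup.of a ^ m := by
  obtain ⟨c, i, j, h1, h2⟩ := exists_zpow h inferInstance
  have h3 := congrArg (cnt a) h1
  rw [cnt_self, map_zpow] at h3
  have h4 : (1 : ℤ) = i * Multiplicative.toAdd (cnt a c) := by
    have := congrArg Multiplicative.toAdd h3
    rw [toAdd_zpow, smul_eq_mul] at this
    exact this
  have h5 : i = 1 ∨ i = -1 := Int.isUnit_iff.1 (IsUnit.of_mul_eq_one _ h4.symm)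
  rcases h5 with h5 | h5
  · refine ⟨j, ?_⟩
    rw [h1, h5, zpow_one, h2]
  · refine ⟨-j, ?_⟩
    rw [h1, h5, zpow_neg_one, h2, inv_zpow', neg_neg]

theorem subsingleton_of_center {α : Type u} {z : FreeGroup α} (hz : ∀ g, g * z = z * g)
    (h1 : z ≠ 1) : Subsingleton α := by
  refine ⟨fun a b => ?_⟩
  by_contra hab
  obtain ⟨m, hm⟩ := mem_zpowers_of_comm (hz (FreeGroup.of a))
  obtain ⟨n, hn⟩ := mem_zpowers_of_comm (hz (FreeGroup.of b))
  have h2 : cnt a z = 1 := by
    rw [hn, map_zpow, cnt_ne (Ne.symm hab), one_zpow]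
  rw [hm, map_zpow, cnt_self] at h2
  have h3 : m = 0 := by
    have := congrArg Multiplicative.toAdd h2
    rw [toAdd_zpow, toAdd_ofAdd, smul_eq_mul, mul_one] at this
    exact this
  rw [h3, zpow_zero] at hm
  exact h1 hm

/-- a free group with non-trivial centre is cyclic -/
theorem isCyclic_of_center {H : Type u} [Group H] [IsFreeGroup H] {z : H}
    (hz : ∀ g, g * z = z * g) (h1 : z ≠ 1) : IsCyclic H := by
  let e := IsFreeGroup.toFreeGroup H
  have h2 : Subsingleton (IsFreeGroup.Generators H) := by
    refine subsingleton_of_center (z := e z) (fun g => ?_) (fun h => h1 ?_)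
    · obtain ⟨g, rfl⟩ := e.surjective g
      rw [← map_mul, ← map_mul, hz]
    · rw [← map_one e] at h
      exact e.injective h
  have h3 : IsCyclic (FreeGroup (IsFreeGroup.Generators H)) := isCyclic_of_subsingleton
  exact (MulEquiv.isCyclic e).2 h3

theorem torsionFree {H : Type*} [Group H] [IsFreeGroup H] {x : H} {n : ℕ} (hn : n ≠ 0)
    (h : x ^ n = 1) : x = 1 := by
  let e := IsFreeGroup.toFreeGroup H
  apply e.injective
  rw [map_one]
  have h1 : (e x) ^ n = 1 := by rw [← map_pow, h, map_one]
  exact (pow_eq_one_iff_left hn).1 h1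

/-! ### residual finiteness -/

/-- a partial injection of a finite set extends to a permutation -/
theorem exists_perm {Ω : Type*} [Finite Ω] (E : Ω → Ω → Prop)
    (h1 : ∀ i j j', E i j → E i j' → j = j') (h2 : ∀ i i' j, E i j → E i' j → i = i') :
    ∃ σ : Equiv.Perm Ω, ∀ i j, E i j → σ i = j := by
  classical
  choose f hf using fun x : {i // ∃ j, E i j} => x.2
  have hinj : Function.Injective f := fun x y hxy => Subtype.ext
    (h2 x.1 y.1 (f x) (hf x) (by rw [hxy]; exact hf y))
  let e : {i // ∃ j, E i j} ≃ {j // j ∈ Set.range f} := Equiv.ofInjective f hinj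
  refine ⟨e.extendSubtype, fun i j hij => ?_⟩
  rw [e.extendSubtype_apply_of_mem i ⟨j, hij⟩]
  exact h1 i _ _ (hf ⟨i, j, hij⟩) hij

/-- free groups are residually finite -/
theorem exists_hom {α : Type*} {w : FreeGroup α} (hw : w ≠ 1) :
    ∃ (m : ℕ) (ρ : FreeGroup α →* Equiv.Perm (Fin m)), ρ w ≠ 1 := by
  classical
  set L := w.toWord with hL
  have hred : FreeGroup.IsReduced L := FreeGroup.isReduced_toWord
  have hlen : L.length ≠ 0 := by
    intro h
    exact hw (FreeGroup.toWord_eq_nil_iff.1 (List.length_eq_zero_iff.1 h))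
  -- consecutive letters are not inverse
  have hcons : ∀ (k : ℕ) (h : k + 1 < L.length), (L[k]).1 = (L[k + 1]).1 →
      (L[k]).2 = (L[k + 1]).2 := by
    intro k h
    exact List.isChain_iff_getElem.1 hred k h
  let E : α → Fin (L.length + 1) → Fin (L.length + 1) → Prop := fun a i j =>
    ∃ (k : ℕ) (h : k < L.length), (L[k] = (a, true) ∧ i.1 = k + 1 ∧ j.1 = k) ∨
      (L[k] = (a, false) ∧ i.1 = k ∧ j.1 = k + 1)
  have hE1 : ∀ a i j j', E a i j → E a i j' → j = j' := by
    rintro a i j j' ⟨k, hk, h⟩ ⟨k', hk', h'⟩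
    apply Fin.ext
    rcases h with ⟨h1, h2, h3⟩ | ⟨h1, h2, h3⟩ <;> rcases h' with ⟨h1', h2', h3'⟩ | ⟨h1', h2', h3'⟩
    · omega
    · have e : k' = k + 1 := by omega
      subst e
      have := hcons k hk' (by rw [h1, h1'])
      rw [h1, h1'] at this
      exact absurd this (by simp)
    · have e : k = k' + 1 := by omega
      subst e
      have := hcons k' hk (by rw [h1, h1'])
      rw [h1, h1'] at this
      exact absurd this (by simp)
    · omega
  have hE2 : ∀ a i i' j, E a i j → E a i' j → i = i' := by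
    rintro a i i' j ⟨k, hk, h⟩ ⟨k', hk', h'⟩
    apply Fin.ext
    rcases h with ⟨h1, h2, h3⟩ | ⟨h1, h2, h3⟩ <;> rcases h' with ⟨h1', h2', h3'⟩ | ⟨h1', h2', h3'⟩
    · omega
    · have e : k = k' + 1 := by omega
      subst e
      have := hcons k' hk (by rw [h1, h1'])
      rw [h1, h1'] at this
      exact absurd this (by simp)
    · have e : k' = k + 1 := by omega
      subst e
      have := hcons k hk' (by rw [h1, h1'])
      rw [h1, h1'] at this
      exact absurd this (by simp)
    · omega
  choose σ hσ using fun a => exists_perm (E a) (hE1 a) (hE2 a)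
  let ρ : FreeGroup α →* Equiv.Perm (Fin (L.length + 1)) := FreeGroup.lift σ
  have key : ∀ d : ℕ, ∀ k : ℕ, k + d = L.length →
      (ρ (FreeGroup.mk (L.drop k)) (Fin.last L.length)).1 = k := by
    intro d
    induction d with
    | zero =>
      intro k hk
      rw [List.drop_of_length_le (by omega)]
      have : FreeGroup.mk ([] : List (α × Bool)) = 1 := rfl
      rw [this, map_one]
      simp only [Equiv.Perm.coe_one, id_eq, Fin.val_last]
      omega
    | succ d ih =>
      intro k hk
      have hlt : k < L.length := by omega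
      rw [List.drop_eq_getElem_cons hlt]
      have h1 : FreeGroup.mk (L[k] :: L.drop (k + 1)) =
          FreeGroup.mk [L[k]] * FreeGroup.mk (L.drop (k + 1)) := by
        rw [FreeGroup.mul_mk, List.singleton_append]
      rw [h1, map_mul, Equiv.Perm.mul_apply]
      have h2 := ih (k + 1) (by omega)
      set i := ρ (FreeGroup.mk (L.drop (k + 1))) (Fin.last L.length) with hi
      obtain ⟨a, b, hs⟩ : ∃ a b, L[k] = (a, b) := ⟨_, _, rfl⟩
      rw [hs]
      cases b with
      | true =>
        have h3 : ρ (FreeGroup.mk [(a, true)]) = σ a := by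
          exact FreeGroup.lift_apply_of
        rw [h3, hσ a i ⟨k, by omega⟩ ⟨k, hlt, Or.inl ⟨hs, h2, rfl⟩⟩]
      | false =>
        have h3 : ρ (FreeGroup.mk [(a, false)]) = (σ a)⁻¹ := by
          have h4 : FreeGroup.mk [(a, false)] = (FreeGroup.of a)⁻¹ := rfl
          rw [h4, map_inv]
          congr 1
        have h5 := hσ a ⟨k, by omega⟩ i ⟨k, hlt, Or.inr ⟨hs, rfl, h2⟩⟩
        rw [h3, ← h5]
        change ((σ a).symm ((σ a) _)).1 = k
        rw [Equiv.symm_apply_apply]
  refine ⟨_, ρ, fun h => ?_⟩
  have h1 := key L.length 0 (by omega)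
  have hLw : FreeGroup.mk L = w := FreeGroup.mk_toWord
  rw [List.drop_zero, hLw, h] at h1
  simp only [Equiv.Perm.coe_one, id_eq, Fin.val_last] at h1
  exact hlen h1

end Pool.Agent.PF74
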