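import Mathlib
import Pool.Agent.Lib.PF74.Free

/-!
Finitely presented groups all of whose proper subgroups are free: the case of a non-trivial centre.
-/

set_option autoImplicit false

namespace Pool.Agent.PF74

open Subgroup

universe u

/-- the conditions of Q1: a finitely presented group which is neither free nor cyclic of prime
order, all of whose proper subgroups are free -/
structure Exotic (G : Type u) [Group G] : Prop where
  fp : Group.IsFinitelyPresented G
  notFree : ¬ IsFreeGroup G
  notPrime : ¬ (IsCyclic G ∧ (Nat.card G).Prime)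
  proper : ∀ H : Subgroup G, H ≠ ⊤ → IsFreeGroup H

section
variable {G : Type u} [Group G]

theorem free_of_subsingleton [Subsingleton G] : IsFreeGroup G := by
  letI : Unique G := { default := 1, uniq := fun _ => Subsingleton.elim _ _ }
  exact IsFreeGroup.ofMulEquiv (MulEquiv.ofUnique : FreeGroup Empty ≃* G)

/-- torsion free cyclic groups are free -/
theorem free_of_cyclic (hc : IsCyclic G) (htf : ∀ (x : G) (n : ℕ), n ≠ 0 → x ^ n = 1 → x = 1) :
    IsFreeGroup G := by
  obtain ⟨g, hg⟩ := hc
  by_cases h1 : g = 1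
  · have : Subsingleton G := ⟨fun a b => by
      obtain ⟨i, rfl⟩ := hg a
      obtain ⟨j, rfl⟩ := hg b
      simp only [h1, one_zpow]⟩
    exact free_of_subsingleton
  · have hinj : Function.Injective (zpowersHom G g) := by
      rw [injective_iff_map_eq_one]
      intro a ha
      rw [zpowersHom_apply] at ha
      by_contra hne
      apply h1
      refine htf g (Multiplicative.toAdd a).natAbs (fun h => hne ?_) (pow_natAbs_eq_one.2 ha)
      rw [Int.natAbs_eq_zero] at h
      exact toAdd_eq_zero.1 h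
    have hsurj : Function.Surjective (zpowersHom G g) := by
      intro x
      obtain ⟨i, hi⟩ := hg x
      exact ⟨Multiplicative.ofAdd i, by rw [zpowersHom_apply]; exact hi⟩
    exact IsFreeGroup.ofMulEquiv ((FreeGroup.mulEquivIntOfUnique (α := Unit)).trans
      (MulEquiv.ofBijective _ ⟨hinj, hsurj⟩))

variable (h : Exotic G)
include h

theorem Exotic.tf {x : G} {n : ℕ} (hn : n ≠ 0) (hx : x ^ n = 1) : x = 1 := by
  by_contra h1
  have hfin : IsOfFinOrder x := isOfFinOrder_iff_pow_eq_one.2 ⟨n, by omega, hx⟩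
  have hpos := hfin.orderOf_pos
  have hne : orderOf x ≠ 1 := fun h => h1 (orderOf_eq_one_iff.1 h)
  obtain ⟨p, hp, k, hk⟩ := Nat.exists_prime_and_dvd hne
  have hk0 : k ≠ 0 := by
    rintro rfl
    omega
  have hy : orderOf (x ^ k) = p := by
    rw [orderOf_pow_of_dvd hk0 ⟨p, by rw [hk, mul_comm]⟩, hk, Nat.mul_div_cancel _ (by omega)]
  have hy1 : x ^ k ≠ 1 := by
    intro h2
    rw [h2, orderOf_one] at hy
    exact hp.one_lt.ne hy
  by_cases ht : zpowers (x ^ k) = ⊤
  · refine h.notPrime ⟨⟨x ^ k, fun g => ?_⟩, ?_⟩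
    · have : g ∈ zpowers (x ^ k) := by rw [ht]; trivial
      exact this
    · have h2 : Nat.card (zpowers (x ^ k)) = p := by rw [Nat.card_zpowers, hy]
      rw [ht, Subgroup.card_top] at h2
      rw [h2]
      exact hp
  · have h2 := h.proper _ ht
    have h3 := torsionFree (H := zpowers (x ^ k)) (x := ⟨x ^ k, mem_zpowers _⟩) hp.ne_zero
      (Subtype.ext (by
        change (x ^ k) ^ p = 1
        rw [← hy]
        exact pow_orderOf_eq_one _))
    exact hy1 (congrArg Subtype.val h3)

theorem Exotic.tfz {x : G} {n : ℤ} (hn : n ≠ 0) (hx : x ^ n = 1) : x = 1 :=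
  h.tf (n := n.natAbs) (by omega) (pow_natAbs_eq_one.2 hx)

theorem Exotic.noncomm : ¬ ∀ a b : G, a * b = b * a := by
  intro hc
  letI : CommGroup G := { ‹Group G› with mul_comm := hc }
  have hinj : Function.Injective (powMonoidHom 2 : G →* G) := by
    rw [injective_iff_map_eq_one]
    intro x hx
    exact h.tf two_ne_zero hx
  by_cases ht : (powMonoidHom 2 : G →* G).range = ⊤
  · have hfg : Group.FG G := by
      obtain ⟨n, φ, hφ, -⟩ := h.fp.out
      exact Group.fg_of_surjective hφ
    have hfg2 : Module.Finite ℤ (Additive G) :=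
      Module.Finite.iff_addGroup_fg.2 (GroupFG.iff_add_fg.1 hfg)
    obtain ⟨r, hr, hr2⟩ := Submodule.exists_sub_one_mem_and_smul_eq_zero_of_fg_of_le_smul
      (Ideal.span {(2 : ℤ)}) (⊤ : Submodule ℤ (Additive G)) hfg2.fg_top (by
        intro x _
        have hx : Additive.toMul x ∈ (powMonoidHom 2 : G →* G).range := by rw [ht]; trivial
        obtain ⟨y, hy⟩ := hx
        have h2 : x = (2 : ℤ) • (Additive.ofMul y) := by
          rw [two_smul]
          apply Additive.toMul.injective
          rw [← hy, powMonoidHom_apply, sq]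
          rfl
        rw [h2]
        exact Submodule.smul_mem_smul (Ideal.subset_span rfl) trivial)
    have hr0 : r ≠ 0 := by
      rintro rfl
      rw [Ideal.mem_span_singleton] at hr
      norm_num at hr
    have hsub : Subsingleton G := ⟨fun a b => by
      have key : ∀ a : G, a = 1 := by
        intro a
        refine h.tfz hr0 ?_
        have h3 := hr2 (Additive.ofMul a) trivial
        exact congrArg Additive.toMul h3
      rw [key a, key b]⟩
    exact h.notFree free_of_subsingleton
  · have h2 := h.proper _ ht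
    exact h.notFree (IsFreeGroup.ofMulEquiv (MonoidHom.ofInjective hinj).symm)

theorem Exotic.pair {x z : G} (hxz : x * z = z * x) : ∃ (c : G) (i j : ℤ), x = c ^ i ∧ z = c ^ j := by
  refine exists_zpow hxz (h.proper _ fun ht => h.noncomm fun a b => ?_)
  have hm := Subgroup.isMulCommutative_closure (k := {x, z}) (by
    rintro a (rfl | ha) b (rfl | hb)
    · rfl
    · rw [Set.mem_singleton_iff.1 hb]; exact hxz
    · rw [Set.mem_singleton_iff.1 ha]; exact hxz.symm
    · rw [Set.mem_singleton_iff.1 ha, Set.mem_singleton_iff.1 hb])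
  have ha : a ∈ closure {x, z} := by rw [ht]; trivial
  have hb : b ∈ closure {x, z} := by rw [ht]; trivial
  exact congrArg Subtype.val (hm.is_comm.comm ⟨a, ha⟩ ⟨b, hb⟩)

theorem Exotic.pow_central {z : G} (hz : z ∈ center G) (hz1 : z ≠ 1) (x : G) :
    ∃ j : ℤ, j ≠ 0 ∧ x ^ j ∈ center G := by
  obtain ⟨c, i, j, h1, h2⟩ := h.pair (mem_center_iff.1 hz x)
  refine ⟨j, fun hj => hz1 (by rw [h2, hj, zpow_zero]), ?_⟩
  have h3 : x ^ j = z ^ i := by
    rw [h1, h2, ← zpow_mul, ← zpow_mul, mul_comm]
  rw [h3]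
  exact zpow_mem hz i

theorem Exotic.proper_cyclic {z : G} (hz : z ∈ center G) (hz1 : z ≠ 1) (H : Subgroup G)
    (hH : H ≠ ⊤) : IsCyclic H := by
  have hf := h.proper H hH
  by_cases hw : ∃ w ∈ H, w ≠ 1 ∧ w ∈ center G
  · obtain ⟨w, hwH, hw1, hwc⟩ := hw
    exact isCyclic_of_center (z := (⟨w, hwH⟩ : H))
      (fun g => Subtype.ext (mem_center_iff.1 hwc g)) (fun h2 => hw1 (congrArg Subtype.val h2))
  · have hs : Subsingleton H := ⟨fun a b => by
      have key : ∀ a : H, a = 1 := by
        intro a
        obtain ⟨j, hj, hj2⟩ := h.pow_central hz hz1 a.1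
        by_contra hne
        refine hw ⟨a.1 ^ j, zpow_mem a.2 j, fun h3 => hne ?_, hj2⟩
        exact Subtype.ext (h.tfz hj h3)
      rw [key a, key b]⟩
    exact ⟨1, fun x => ⟨0, hs.elim _ _⟩⟩

/-- normal cyclic subgroups are central -/
theorem Exotic.normal_cyclic {z : G} (hz : z ∈ center G) (hz1 : z ≠ 1) {H : Subgroup G}
    (hn : H.Normal) (hc : IsCyclic H) : H ≤ center G := by
  intro x hx
  rw [mem_center_iff]
  intro g
  obtain ⟨⟨a, haH⟩, ha⟩ := hc
  have key : g * a = a * g := by
    obtain ⟨m, hm⟩ := ha ⟨g * a * g⁻¹, hn.conj_mem a haH g⟩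
    have hm' : a ^ m = g * a * g⁻¹ := congrArg Subtype.val hm
    obtain ⟨k, hk, hk2⟩ := h.pow_central hz hz1 a
    have h1 : g * a ^ k * g⁻¹ = a ^ k := by
      rw [mem_center_iff.1 hk2 g, mul_inv_cancel_right]
    have h2 : (a ^ m) ^ k = a ^ k := by
      rw [hm', conj_zpow, h1]
    have h3 : a ^ ((m - 1) * k) = 1 := by
      rw [sub_mul, one_mul, zpow_sub, zpow_mul, h2, mul_inv_cancel]
    by_cases hm1 : m = 1
    · rw [hm1, zpow_one] at hm'
      calc g * a = g * a * g⁻¹ * g := by rw [inv_mul_cancel_right]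
        _ = a * g := by rw [← hm']
    · have h4 : a = 1 := h.tfz (mul_ne_zero (sub_ne_zero.2 hm1) hk) h3
      rw [h4, mul_one, one_mul]
  obtain ⟨i, hi⟩ := ha ⟨x, hx⟩
  have hi' : a ^ i = x := congrArg Subtype.val hi
  rw [← hi']
  exact (Commute.zpow_right (show Commute g a from key) i)

end

end Pool.Agent.PF74
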