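import Mathlib
import Pool.Agent.Lib.PF74.Main

/-!
Finitely presented groups all of whose proper subgroups are free: the central quotient.
-/

set_option autoImplicit false

namespace Pool.Agent.PF74

open Subgroup
open scoped commutatorElement

universe u

theorem comm_mem {G : Type u} [Group G] (a b : G) : ⁅a, b⁆ ∈ _root_.commutator G := by
  rw [_root_.commutator_def]
  exact Subgroup.commutator_mem_commutator (mem_top a) (mem_top b)

theorem fg_of_cyclic {G : Type u} [Group G] (hc : IsCyclic G) : Group.FG G := by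
  obtain ⟨g, hg⟩ := hc
  have hs : Function.Surjective (zpowersHom G g) := fun x => by
    obtain ⟨i, hi⟩ := hg x
    exact ⟨Multiplicative.ofAdd i, by rw [zpowersHom_apply]; exact hi⟩
  have : Group.FG (Multiplicative ℤ) := inferInstance
  exact Group.fg_of_surjective hs

section
variable {G : Type u} [Group G] (h : Exotic G)
include h

theorem Exotic.center_ne_top : center G ≠ ⊤ := by
  intro ht
  refine h.noncomm fun a b => ?_
  have hb : b ∈ center G := by rw [ht]; trivial
  exact mem_center_iff.1 hb a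

theorem Exotic.quot_torsion {z : G} (hz : z ∈ center G) (hz1 : z ≠ 1) (q : G ⧸ center G) :
    ∃ n : ℕ, n ≠ 0 ∧ q ^ n = 1 := by
  obtain ⟨x, rfl⟩ := QuotientGroup.mk'_surjective (center G) q
  obtain ⟨j, hj, hj2⟩ := h.pow_central hz hz1 x
  refine ⟨j.natAbs, by omega, pow_natAbs_eq_one.2 ?_⟩
  rw [← map_zpow]
  exact (QuotientGroup.eq_one_iff _).2 hj2

theorem Exotic.quot_infinite : Infinite (G ⧸ center G) := by
  rw [← not_finite_iff_infinite]
  intro hfin
  have hfs : Finite (commutatorSet G) := by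
    have : commutatorSet G ⊆ Set.range (fun p : (G ⧸ center G) × (G ⧸ center G) =>
        ⁅p.1.out, p.2.out⁆) := by
      rintro _ ⟨a, b, rfl⟩
      refine ⟨(QuotientGroup.mk a, QuotientGroup.mk b), ?_⟩
      obtain ⟨⟨u, hu⟩, hu'⟩ := QuotientGroup.mk_out_eq_mul (center G) a
      obtain ⟨⟨v, hv⟩, hv'⟩ := QuotientGroup.mk_out_eq_mul (center G) b
      simp only at hu' hv' ⊢
      rw [hu', hv']
      have hu1 := mem_center_iff.1 hu
      have hv1 := mem_center_iff.1 hv
      have hu2 : ∀ g, g * u⁻¹ = u⁻¹ * g := fun g => mem_center_iff.1 (inv_mem hu) g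
      have hv2 : ∀ g, g * v⁻¹ = v⁻¹ * g := fun g => mem_center_iff.1 (inv_mem hv) g
      simp only [commutatorElement_def, mul_inv_rev]
      calc a * u * (b * v) * (u⁻¹ * a⁻¹) * (v⁻¹ * b⁻¹)
          = a * (u * ((b * v) * u⁻¹)) * a⁻¹ * v⁻¹ * b⁻¹ := by simp only [mul_assoc]
        _ = a * (b * v) * a⁻¹ * v⁻¹ * b⁻¹ := by rw [hu2 (b * v), mul_inv_cancel_left]
        _ = a * b * (v * (a⁻¹ * v⁻¹)) * b⁻¹ := by simp only [mul_assoc]
        _ = a * b * a⁻¹ * b⁻¹ := by rw [hv2 a⁻¹, mul_inv_cancel_left]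
    exact (Set.finite_range _).subset this
  have hfc : Finite (_root_.commutator G) := inferInstance
  refine h.noncomm fun a b => ?_
  rw [← commutatorElement_eq_one_iff_mul_comm]
  have hmem : ⁅a, b⁆ ∈ _root_.commutator G := comm_mem a b
  have hfo : IsOfFinOrder (⟨⁅a, b⁆, hmem⟩ : _root_.commutator G) := isOfFinOrder_of_finite _
  obtain ⟨n, hn, hn2⟩ := isOfFinOrder_iff_pow_eq_one.1 hfo
  exact h.tf (n := n) (by omega) (congrArg Subtype.val hn2)

theorem Exotic.quot_proper {z : G} (hz : z ∈ center G) (hz1 : z ≠ 1)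
    (K : Subgroup (G ⧸ center G)) (hK : K ≠ ⊤) : IsCyclic K ∧ Finite K := by
  have hs := QuotientGroup.mk'_surjective (center G)
  have hne : K.comap (QuotientGroup.mk' (center G)) ≠ ⊤ := by
    intro ht
    apply hK
    rw [← map_comap_eq_self_of_surjective hs K, ht, ← MonoidHom.range_eq_map,
      MonoidHom.range_eq_top_of_surjective _ hs]
  have hc := h.proper_cyclic hz hz1 _ hne
  have hc2 : IsCyclic K := by
    obtain ⟨⟨a, haK⟩, ha⟩ := hc
    refine ⟨⟨QuotientGroup.mk' (center G) a, haK⟩, ?_⟩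
    rintro ⟨q, hq⟩
    obtain ⟨x, rfl⟩ := hs q
    obtain ⟨i, hi⟩ := ha ⟨x, hq⟩
    refine ⟨i, Subtype.ext ?_⟩
    have hi' : a ^ i = x := congrArg Subtype.val hi
    change (QuotientGroup.mk' (center G) a) ^ i = QuotientGroup.mk' (center G) x
    rw [← map_zpow, hi']
  refine ⟨hc2, ?_⟩
  obtain ⟨g, hg⟩ := hc2
  obtain ⟨n, hn, hn2⟩ := h.quot_torsion hz hz1 g.1
  have hfo : IsOfFinOrder g := isOfFinOrder_iff_pow_eq_one.2 ⟨n, by omega, Subtype.ext hn2⟩
  have h1 : Finite (zpowers g) := hfo.finite_zpowers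
  have h2 : zpowers g = ⊤ := by
    rw [eq_top_iff]
    intro x _
    exact hg x
  rw [h2] at h1
  exact Finite.of_equiv _ (topEquiv (G := K)).toEquiv

theorem Exotic.quot_simple {z : G} (hz : z ∈ center G) (hz1 : z ≠ 1) :
    IsSimpleGroup (G ⧸ center G) := by
  have hs := QuotientGroup.mk'_surjective (center G)
  have := h.quot_infinite
  refine { exists_pair_ne := exists_pair_ne _, eq_bot_or_eq_top_of_normal := ?_ }
  intro K hK
  by_cases ht : K = ⊤
  · exact Or.inr ht
  · left
    have hne : K.comap (QuotientGroup.mk' (center G)) ≠ ⊤ := by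
      intro ht2
      apply ht
      rw [← map_comap_eq_self_of_surjective hs K, ht2, ← MonoidHom.range_eq_map,
        MonoidHom.range_eq_top_of_surjective _ hs]
    have hc := h.proper_cyclic hz hz1 _ hne
    have hle := h.normal_cyclic hz hz1 (hK.comap _) hc
    rw [eq_bot_iff]
    intro q hq
    obtain ⟨x, rfl⟩ := hs q
    have : x ∈ center G := hle hq
    rw [mem_bot]
    exact (QuotientGroup.eq_one_iff _).2 this

theorem Exotic.perfect {z : G} (hz : z ∈ center G) (hz1 : z ≠ 1) :
    _root_.commutator G = ⊤ := by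
  by_contra hne
  have hs := QuotientGroup.mk'_surjective (center G)
  have hc := h.proper_cyclic hz hz1 _ hne
  have hle := h.normal_cyclic hz hz1 (inferInstance : (_root_.commutator G).Normal) hc
  have hcomm : ∀ a b : G ⧸ center G, a * b = b * a := by
    intro a b
    obtain ⟨x, rfl⟩ := hs a
    obtain ⟨y, rfl⟩ := hs b
    rw [← commutatorElement_eq_one_iff_mul_comm, ← map_commutatorElement]
    exact (QuotientGroup.eq_one_iff _).2 (hle (comm_mem x y))
  have hsimp := h.quot_simple hz hz1
  have hinf := h.quot_infinite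
  obtain ⟨q, hq⟩ := exists_ne (1 : G ⧸ center G)
  have hn : (zpowers q).Normal := ⟨fun n hn g => by rw [hcomm g n, mul_inv_cancel_right]; exact hn⟩
  rcases hn.eq_bot_or_eq_top with h1 | h1
  · exact hq (zpowers_eq_bot.1 h1)
  · obtain ⟨n, hn1, hn2⟩ := h.quot_torsion hz hz1 q
    have hfo : IsOfFinOrder q := isOfFinOrder_iff_pow_eq_one.2 ⟨n, by omega, hn2⟩
    have h2 : Finite (zpowers q) := hfo.finite_zpowers
    rw [h1] at h2
    exact hinf.not_finite (Finite.of_equiv _ (topEquiv (G := G ⧸ center G)).toEquiv)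

theorem Exotic.center_cyclic {z : G} (hz : z ∈ center G) (hz1 : z ≠ 1) : IsCyclic (center G) :=
  h.proper_cyclic hz hz1 _ h.center_ne_top

theorem Exotic.quot_fp {z : G} (hz : z ∈ center G) (hz1 : z ≠ 1) :
    Group.IsFinitelyPresented (G ⧸ center G) := by
  have := h.fp
  have := h.center_cyclic hz hz1
  have : Group.FG (center G) := fg_of_cyclic this
  exact Group.IsFinitelyPresented.quotient _ (Subgroup.IsFinitelyNormallyGenerated.of_FG _)

/-- two elements which do not commute generate the whole group -/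
theorem Exotic.two_gen {z : G} (hz : z ∈ center G) (hz1 : z ≠ 1) {a b : G}
    (hab : a * b ≠ b * a) : closure {a, b} = (⊤ : Subgroup G) := by
  by_contra hne
  have hc := h.proper_cyclic hz hz1 _ hne
  have ha : a ∈ closure {a, b} := subset_closure (by simp)
  have hb : b ∈ closure {a, b} := subset_closure (by simp)
  have := hc.isMulCommutative.is_comm.comm ⟨a, ha⟩ ⟨b, hb⟩
  exact hab (congrArg Subtype.val this)

end

end Pool.Agent.PF74
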