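import Mathlib
import Pool.Agent.Lib.PF74.Main2

/-!
Finitely presented groups all of whose proper subgroups are free: the converse.
-/

set_option autoImplicit false

namespace Pool.Agent.PF74

open Subgroup
open scoped commutatorElement

universe u

section
variable {G : Type u} [Group G]

theorem sup_center (hp : _root_.commutator G = ⊤) {H : Subgroup G} (ht : H ⊔ center G = ⊤) :
    H = ⊤ := by
  rw [eq_top_iff, ← hp, _root_.commutator_def, Subgroup.commutator_le]
  intro a _ b _
  have hdec : ∀ x : G, ∃ u ∈ H, ∃ v ∈ center G, u * v = x := fun x =>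
    Subgroup.mem_sup_of_normal_right.1 (by rw [ht]; trivial)
  obtain ⟨x, hx, u, hu, rfl⟩ := hdec a
  obtain ⟨y, hy, v, hv, rfl⟩ := hdec b
  have hu2 : ∀ g, g * u⁻¹ = u⁻¹ * g := fun g => mem_center_iff.1 (inv_mem hu) g
  have hv2 : ∀ g, g * v⁻¹ = v⁻¹ * g := fun g => mem_center_iff.1 (inv_mem hv) g
  have e : ⁅x * u, y * v⁆ = ⁅x, y⁆ := by
    simp only [commutatorElement_def, mul_inv_rev]
    calc x * u * (y * v) * (u⁻¹ * x⁻¹) * (v⁻¹ * y⁻¹)
        = x * (u * ((y * v) * u⁻¹)) * x⁻¹ * v⁻¹ * y⁻¹ := by simp only [mul_assoc]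
      _ = x * (y * v) * x⁻¹ * v⁻¹ * y⁻¹ := by rw [hu2 (y * v), mul_inv_cancel_left]
      _ = x * y * (v * (x⁻¹ * v⁻¹)) * y⁻¹ := by simp only [mul_assoc]
      _ = x * y * x⁻¹ * y⁻¹ := by rw [hv2 x⁻¹, mul_inv_cancel_left]
  rw [e, commutatorElement_def]
  exact mul_mem (mul_mem (mul_mem hx hy) (inv_mem hx)) (inv_mem hy)

theorem proper_of_datum (htf : ∀ (x : G) (n : ℕ), n ≠ 0 → x ^ n = 1 → x = 1)
    (hp : _root_.commutator G = ⊤) (hcc : IsCyclic (center G))
    (hq : ∀ K : Subgroup (G ⧸ center G), K ≠ ⊤ → IsCyclic K ∧ Finite K)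
    (H : Subgroup G) (hH : H ≠ ⊤) : IsFreeGroup H := by
  have hK : H.map (QuotientGroup.mk' (center G)) ≠ ⊤ := by
    intro ht
    apply hH
    apply sup_center hp
    have h1 := Subgroup.comap_map_eq (QuotientGroup.mk' (center G)) H
    rw [ht, comap_top, QuotientGroup.ker_mk'] at h1
    exact h1.symm
  obtain ⟨hc, hf⟩ := hq _ hK
  let f : H →* H.map (QuotientGroup.mk' (center G)) :=
    (QuotientGroup.mk' (center G)).subgroupMap H
  have hfc : ∀ x : H, f x = 1 → x.1 ∈ center G := by
    intro x hx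
    have : QuotientGroup.mk' (center G) x.1 = 1 := congrArg Subtype.val hx
    exact (QuotientGroup.eq_one_iff _).1 this
  have hk : f.ker ≤ center H := by
    intro x hx
    have h1 := hfc x hx
    rw [mem_center_iff]
    intro g
    exact Subtype.ext (mem_center_iff.1 h1 g.1)
  have hab := f.isMulCommutative_of_isCyclic_of_ker_le_center hk
  let n := Nat.card (H.map (QuotientGroup.mk' (center G)))
  have hn : n ≠ 0 := Nat.card_pos.ne'
  have hpow : ∀ x : H, x.1 ^ n ∈ center G := by
    intro x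
    have h1 : f (x ^ n) = 1 := by rw [map_pow]; exact pow_card_eq_one'
    exact hfc _ h1
  let φ : H →* center G :=
    { toFun := fun x => ⟨x.1 ^ n, hpow x⟩
      map_one' := Subtype.ext (one_pow n)
      map_mul' := fun x y => Subtype.ext (by
        have hc : Commute x.1 y.1 := congrArg Subtype.val (hab.is_comm.comm x y)
        exact hc.mul_pow n) }
  have hinj : Function.Injective φ := by
    rw [injective_iff_map_eq_one]
    intro x hx
    exact Subtype.ext (htf x.1 n hn (congrArg Subtype.val hx))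
  have hcH : IsCyclic H := isCyclic_of_injective φ hinj
  exact free_of_cyclic hcH fun x m hm hx => Subtype.ext (htf x.1 m hm (congrArg Subtype.val hx))

theorem not_comm_of_infinite (hi : Infinite (G ⧸ center G)) : ¬ ∀ a b : G, a * b = b * a := by
  intro hc
  have : Subsingleton (G ⧸ center G) := by
    refine ⟨fun a b => ?_⟩
    have key : ∀ q : G ⧸ center G, q = 1 := by
      intro q
      obtain ⟨x, rfl⟩ := QuotientGroup.mk'_surjective (center G) q
      exact (QuotientGroup.eq_one_iff _).2 (mem_center_iff.2 fun g => hc g x)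
    rw [key a, key b]
  exact not_finite (G ⧸ center G)

theorem exotic_of_datum (hfp : Group.IsFinitelyPresented G)
    (htf : ∀ (x : G) (n : ℕ), n ≠ 0 → x ^ n = 1 → x = 1)
    (hp : _root_.commutator G = ⊤) (hcc : IsCyclic (center G)) (hc1 : center G ≠ ⊥)
    (hi : Infinite (G ⧸ center G))
    (hq : ∀ K : Subgroup (G ⧸ center G), K ≠ ⊤ → IsCyclic K ∧ Finite K) : Exotic G := by
  have hnc := not_comm_of_infinite hi
  refine ⟨hfp, fun hf => ?_, fun hcy => ?_, fun H hH => proper_of_datum htf hp hcc hq H hH⟩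
  · obtain ⟨z, hz1⟩ := (Subgroup.ne_bot_iff_exists_ne_one).1 hc1
    have hcy : IsCyclic G := isCyclic_of_center (z := z.1) (fun g => mem_center_iff.1 z.2 g)
      (fun h2 => hz1 (Subtype.ext h2))
    exact hnc fun a b => hcy.isMulCommutative.is_comm.comm a b
  · exact hnc fun a b => hcy.1.isMulCommutative.is_comm.comm a b

end

end Pool.Agent.PF74
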