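import Mathlib
import Pool.Agent.Lib.PF74.Main

/-!
Finitely presented groups all of whose proper subgroups are free: finitely generated normal
subgroups.
-/

set_option autoImplicit false

namespace Pool.Agent.PF74

open Subgroup
open scoped commutatorElement

universe u

section
variable {G : Type u} [Group G]

theorem finite_hom {N : Type*} [Group N] (hN : Group.FG N) (P : Type*) [Group P] [Finite P] :
    Finite (N →* P) := by
  obtain ⟨S, hS⟩ := Group.fg_iff.1 hN
  obtain ⟨hS1, hS2⟩ := hS
  have := hS2.to_subtype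
  refine Finite.of_injective (fun f : N →* P => fun s : S => f s.1) ?_
  intro f g hfg
  refine MonoidHom.eq_of_eqOn_dense hS1 fun x hx => ?_
  exact congrFun hfg ⟨x, hx⟩

/-- a finitely generated normal free subgroup is central or the group has a proper subgroup of
finite index -/
theorem central_or_finiteIndex {N : Subgroup G} [hN : N.Normal] (hfg : Group.FG N)
    (hf : IsFreeGroup N) : N ≤ center G ∨ ∃ K : Subgroup G, K ≠ ⊤ ∧ K.FiniteIndex := by
  by_cases hc : N ≤ center G
  · exact Or.inl hc
  right
  obtain ⟨n, hn, hn2⟩ := SetLike.not_le_iff_exists.1 hc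
  rw [mem_center_iff] at hn2
  push Not at hn2
  obtain ⟨g, hg⟩ := hn2
  let w : N := ⟨g * n * g⁻¹, hN.conj_mem n hn g⟩ * ⟨n, hn⟩⁻¹
  have hw : w ≠ 1 := by
    intro h1
    have h2 : g * n * g⁻¹ * n⁻¹ = 1 := congrArg Subtype.val h1
    apply hg
    rw [mul_inv_eq_one] at h2
    calc g * n = g * n * g⁻¹ * g := by group
      _ = n * g := by rw [h2]
  let e := IsFreeGroup.toFreeGroup N
  have hew : e w ≠ 1 := fun h1 => hw (e.injective (by rw [h1, map_one]))
  obtain ⟨m, ρ, hρ⟩ := exists_hom hew
  let φ : N →* Equiv.Perm (Fin m) := ρ.comp e.toMonoidHom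
  have hfin : Finite (N →* Equiv.Perm (Fin m)) := finite_hom hfg _
  let Φ : G →* Equiv.Perm (N →* Equiv.Perm (Fin m)) :=
    { toFun := fun x =>
        { toFun := fun ψ => ψ.comp (MulAut.conjNormal x⁻¹).toMonoidHom
          invFun := fun ψ => ψ.comp (MulAut.conjNormal x).toMonoidHom
          left_inv := fun ψ => by
            ext n
            simp
          right_inv := fun ψ => by
            ext n
            simp }
      map_one' := by
        ext ψ n
        simp
      map_mul' := fun x y => by
        ext ψ n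
        simp }
  refine ⟨Φ.ker, fun ht => ?_, finiteIndex_ker Φ⟩
  have h1 : g⁻¹ ∈ Φ.ker := by rw [ht]; trivial
  have h2 : Φ g⁻¹ φ = φ := by
    rw [MonoidHom.mem_ker.1 h1]
    rfl
  have h3 : φ ⟨g * n * g⁻¹, hN.conj_mem n hn g⟩ = φ ⟨n, hn⟩ := by
    have h4 := DFunLike.congr_fun h2 (⟨n, hn⟩ : N)
    rw [← h4]
    change _ = φ (MulAut.conjNormal (g⁻¹)⁻¹ (⟨n, hn⟩ : N))
    congr 1
    apply Subtype.ext
    rw [MulAut.conjNormal_apply, inv_inv]
  apply hρ
  change φ w = 1
  change φ (_ * _) = 1
  rw [map_mul, h3, ← map_mul, mul_inv_cancel, map_one]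

/-- a finitely generated group is perfect or has a proper subgroup of finite index -/
theorem perfect_or_finiteIndex (hfg : Group.FG G) :
    _root_.commutator G = ⊤ ∨ ∃ K : Subgroup G, K ≠ ⊤ ∧ K.FiniteIndex := by
  by_cases hp : _root_.commutator G = ⊤
  · exact Or.inl hp
  right
  have hab : Group.FG (Abelianization G) :=
    Group.fg_of_surjective (f := Abelianization.of) (QuotientGroup.mk_surjective)
  have hmf : Module.Finite ℤ (Additive (Abelianization G)) :=
    Module.Finite.iff_addGroup_fg.2 (GroupFG.iff_add_fg.1 hab)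
  have hnt : Nontrivial (Additive (Abelianization G)) := by
    rw [← not_subsingleton_iff_nontrivial]
    intro hs
    apply hp
    rw [eq_top_iff]
    intro x _
    have h1 : Abelianization.of x = 1 := hs.elim (Additive.ofMul (Abelianization.of x)) 0
    exact (QuotientGroup.eq_one_iff _).1 h1
  obtain ⟨P, hP, -⟩ := (eq_top_or_exists_le_coatom
    (⊥ : Submodule ℤ (Additive (Abelianization G)))).resolve_left bot_ne_top
  have hs := (isSimpleModule_iff_isCoatom).2 hP
  obtain ⟨I, hI, ⟨e⟩⟩ := isSimpleModule_iff_quot_maximal.1 hs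
  have hI0 : I ≠ ⊥ := Ring.ne_bot_of_isMaximal_of_not_isField hI Int.not_isField
  have hfI : Finite (ℤ ⧸ I) := Ideal.finiteQuotientOfFreeOfNeBot I hI0
  have hfP : Finite (Additive (Abelianization G) ⧸ P) := Finite.of_equiv _ e.symm.toEquiv
  let f : G →* Multiplicative (Additive (Abelianization G) ⧸ P) :=
    (AddMonoidHom.toMultiplicativeRight P.mkQ.toAddMonoidHom).comp Abelianization.of
  have hf2 : Finite (Multiplicative (Additive (Abelianization G) ⧸ P)) := hfP
  refine ⟨f.ker, fun ht => hP.1 ?_, finiteIndex_ker f⟩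
  rw [eq_top_iff]
  intro x _
  obtain ⟨y, hy⟩ := QuotientGroup.mk_surjective (Additive.toMul x)
  have h1 : y ∈ f.ker := by rw [ht]; trivial
  have h2 : P.mkQ x = 0 := by
    have h3 : P.mkQ (Additive.ofMul (Abelianization.of y)) = 0 := MonoidHom.mem_ker.1 h1
    have hx : Additive.ofMul (Abelianization.of y) = x := congrArg Additive.ofMul hy
    rwa [hx] at h3
  exact (Submodule.Quotient.mk_eq_zero P).1 h2

end

end Pool.Agent.PF74
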