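import Mathlib
import Pool.Agent.Lib.PF74.Main2

/-!
Finitely presented groups all of whose proper subgroups are free: normal abelian subgroups, and
the converse.
-/

set_option autoImplicit false

namespace Pool.Agent.PF74

open Subgroup
open scoped commutatorElement

universe u

section
variable {G : Type u} [Group G] (h : Exotic G)
include h

/-- conjugation acts on an infinite cyclic normal subgroup by a sign -/
theorem Exotic.conj_sign {a : G} (ha : a ≠ 1) (g : G) (h1 : ∃ m : ℤ, g * a * g⁻¹ = a ^ m)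
    (h2 : ∃ m : ℤ, g⁻¹ * a * g = a ^ m) : g * a * g⁻¹ = a ∨ g * a * g⁻¹ = a⁻¹ := by
  obtain ⟨m, hm⟩ := h1
  obtain ⟨k, hk⟩ := h2
  have h3 : a ^ (k * m) = a := by
    rw [mul_comm, zpow_mul, ← hm, conj_zpow, ← hk]
    group
  have h4 : a ^ (k * m - 1) = 1 := by
    rw [zpow_sub, h3, zpow_one, mul_inv_cancel]
  have h5 : k * m - 1 = 0 := by
    by_contra hne
    exact ha (h.tfz hne h4)
  have h6 : m = 1 ∨ m = -1 := by
    have : IsUnit m := IsUnit.of_mul_eq_one k (by rw [mul_comm]; omega)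
    exact Int.isUnit_iff.1 this
  rcases h6 with rfl | rfl
  · left; rw [hm, zpow_one]
  · right; rw [hm, zpow_neg_one]

theorem Exotic.center_of_normal {N : Subgroup G} (hN : N.Normal)
    (hab : ∀ a ∈ N, ∀ b ∈ N, a * b = b * a) (hne : N ≠ ⊥) : center G ≠ ⊥ := by
  intro hcen
  have hNt : N ≠ ⊤ := by
    rintro rfl
    exact h.noncomm fun a b => hab a trivial b trivial
  have hf := h.proper N hNt
  have hc : IsCyclic N := isCyclic_of_comm fun a b => Subtype.ext (hab _ a.2 _ b.2)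
  obtain ⟨⟨a, haN⟩, ha⟩ := hc
  have hpow : ∀ x ∈ N, ∃ m : ℤ, x = a ^ m := by
    intro x hx
    obtain ⟨m, hm⟩ := ha ⟨x, hx⟩
    exact ⟨m, (congrArg Subtype.val hm).symm⟩
  have ha1 : a ≠ 1 := by
    intro h1
    apply hne
    rw [eq_bot_iff]
    intro x hx
    obtain ⟨m, hm⟩ := hpow x hx
    rw [mem_bot, hm, h1, one_zpow]
  have hsign : ∀ g : G, g * a * g⁻¹ = a ∨ g * a * g⁻¹ = a⁻¹ := by
    intro g
    refine h.conj_sign ha1 g (hpow _ (hN.conj_mem a haN g)) ?_
    have h2 := hN.conj_mem a haN g⁻¹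
    rw [inv_inv] at h2
    exact hpow _ h2
  -- the centralizer of `a`
  have hcent : ∃ g : G, g * a * g⁻¹ ≠ a := by
    by_contra hall
    push Not at hall
    have : a ∈ center G := mem_center_iff.2 fun g => by
      calc g * a = g * a * g⁻¹ * g := by rw [inv_mul_cancel_right]
        _ = a * g := by rw [hall g]
    rw [hcen, mem_bot] at this
    exact ha1 this
  obtain ⟨g, hg⟩ := hcent
  have hg2 : g * a * g⁻¹ = a⁻¹ := (hsign g).resolve_left hg
  let C : Subgroup G := centralizer {a}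
  have hCmem : ∀ x, x ∈ C ↔ x * a * x⁻¹ = a := by
    intro x
    rw [mem_centralizer_singleton_iff]
    constructor
    · intro hx
      rw [hx, mul_inv_cancel_right]
    · intro hx
      calc x * a = x * a * x⁻¹ * x := by rw [inv_mul_cancel_right]
        _ = a * x := by rw [hx]
  have hCt : C ≠ ⊤ := by
    intro ht
    have : g ∈ C := by rw [ht]; trivial
    exact hg ((hCmem g).1 this)
  have hfC := h.proper C hCt
  have haC : a ∈ C := (hCmem a).2 (mul_inv_cancel_right a a)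
  have hcC : IsCyclic C := isCyclic_of_center (z := (⟨a, haC⟩ : C))
    (fun x => Subtype.ext (by
      have := mem_centralizer_singleton_iff.1 x.2
      exact this)) (fun h2 => ha1 (congrArg Subtype.val h2))
  obtain ⟨⟨c, hcC'⟩, hc⟩ := hcC
  have hpowC : ∀ x ∈ C, ∃ m : ℤ, x = c ^ m := by
    intro x hx
    obtain ⟨m, hm⟩ := hc ⟨x, hx⟩
    exact ⟨m, (congrArg Subtype.val hm).symm⟩
  have hc1 : c ≠ 1 := by
    intro h1
    obtain ⟨m, hm⟩ := hpowC a haC
    exact ha1 (by rw [hm, h1, one_zpow])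
  have hCn : ∀ (y x : G), x ∈ C → y * x * y⁻¹ ∈ C := by
    intro y x hx
    rw [hCmem] at hx ⊢
    have hy : y⁻¹ * a * y = a ∨ y⁻¹ * a * y = a⁻¹ := by
      have := hsign y⁻¹
      rwa [inv_inv] at this
    have e1 : y * x * y⁻¹ * a * (y * x * y⁻¹)⁻¹ = y * (x * (y⁻¹ * a * y) * x⁻¹) * y⁻¹ := by
      group
    rw [e1]
    rcases hy with hy | hy
    · rw [hy, hx]
      calc y * a * y⁻¹ = y * (y⁻¹ * a * y) * y⁻¹ := by rw [hy]
        _ = a := by group
    · have : x * a⁻¹ * x⁻¹ = a⁻¹ := by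
        have : x * a⁻¹ * x⁻¹ = (x * a * x⁻¹)⁻¹ := by group
        rw [this, hx]
      rw [hy, this]
      calc y * a⁻¹ * y⁻¹ = y * (y⁻¹ * a * y) * y⁻¹ := by rw [hy]
        _ = a := by group
  have hsg : g * c * g⁻¹ = c ∨ g * c * g⁻¹ = c⁻¹ := by
    refine h.conj_sign hc1 g (hpowC _ (hCn g c hcC')) ?_
    have h2 := hCn g⁻¹ c hcC'
    rw [inv_inv] at h2
    exact hpowC _ h2
  obtain ⟨i, hi⟩ := hpowC a haC
  have hsg2 : g * c * g⁻¹ = c⁻¹ := by
    refine hsg.resolve_left fun h1 => hg ?_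
    rw [hi, ← conj_zpow, h1]
  have hgg : g * g ∈ C := by
    rw [hCmem]
    have e1 : g * g * a * (g * g)⁻¹ = g * (g * a * g⁻¹) * g⁻¹ := by group
    have e2 : g * a⁻¹ * g⁻¹ = (g * a * g⁻¹)⁻¹ := by group
    rw [e1, hg2, e2, hg2, inv_inv]
  obtain ⟨j, hj⟩ := hpowC _ hgg
  have e3 : g * (g * g) * g⁻¹ = g * g := by group
  have e4 : c ^ (2 * j) = 1 := by
    have e5 : g * c ^ j * g⁻¹ = c ^ (-j) := by
      rw [← conj_zpow, hsg2, inv_zpow']
    rw [← hj, e3, hj] at e5
    rw [two_mul, zpow_add]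
    nth_rewrite 1 [e5]
    rw [zpow_neg, inv_mul_cancel]
  have hj0 : j = 0 := by
    by_contra hne
    exact hc1 (h.tfz (by omega : (2 * j : ℤ) ≠ 0) e4)
  have hg1 : g = 1 := by
    refine h.tf (n := 2) two_ne_zero ?_
    rw [sq, hj, hj0, zpow_zero]
  apply hg
  rw [hg1]
  group

end

end Pool.Agent.PF74
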