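import Mathlib
import Pool.Agent.Lib.PF74.Main3
import Pool.Agent.Lib.PF74.Conv
import Pool.Agent.Lib.PF74.Fin

/-!
Finitely presented groups all of whose proper subgroups are free: the two theorems.
-/

set_option autoImplicit false

namespace Pool.Agent.PF74

open Subgroup

universe u

/-- the list of conditions which characterises the groups of Q1 with a non-trivial abelian normal
subgroup: a perfect torsion free finitely presented group with infinite cyclic centre, modulo which
it is a finitely presented infinite simple torsion group all of whose proper subgroups are finite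
cyclic -/
structure CentralDatum (G : Type u) [Group G] : Prop where
  fp : Group.IsFinitelyPresented G
  torsionFree : ∀ (x : G) (n : ℕ), n ≠ 0 → x ^ n = 1 → x = 1
  perfect : _root_.commutator G = ⊤
  centerCyclic : IsCyclic (center G)
  centerInfinite : Infinite (center G)
  quotFP : Group.IsFinitelyPresented (G ⧸ center G)
  quotInfinite : Infinite (G ⧸ center G)
  quotSimple : IsSimpleGroup (G ⧸ center G)
  quotTorsion : ∀ q : G ⧸ center G, ∃ n : ℕ, n ≠ 0 ∧ q ^ n = 1
  quotProper : ∀ K : Subgroup (G ⧸ center G), K ≠ ⊤ → IsCyclic K ∧ Finite K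

theorem center_infinite {G : Type u} [Group G]
    (htf : ∀ (x : G) (n : ℕ), n ≠ 0 → x ^ n = 1 → x = 1) (hc : center G ≠ ⊥) :
    Infinite (center G) := by
  obtain ⟨z, hz⟩ := (Subgroup.ne_bot_iff_exists_ne_one).1 hc
  rw [← not_finite_iff_infinite]
  intro hf
  obtain ⟨n, hn, hn2⟩ := isOfFinOrder_iff_pow_eq_one.1 (isOfFinOrder_of_finite z)
  exact hz (Subtype.ext (htf z.1 n (by omega) (congrArg Subtype.val hn2)))

theorem central_case (G : Type u) [Group G] :
    (Exotic G ∧ ∃ N : Subgroup G, N.Normal ∧ N ≠ ⊥ ∧ ∀ a ∈ N, ∀ b ∈ N, a * b = b * a) ↔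
      CentralDatum G := by
  constructor
  · rintro ⟨h, N, hN, hne, hab⟩
    have hc := h.center_of_normal hN hab hne
    obtain ⟨⟨z, hz⟩, hz1⟩ := (Subgroup.ne_bot_iff_exists_ne_one).1 hc
    have hz2 : z ≠ 1 := fun h1 => hz1 (Subtype.ext h1)
    exact
      { fp := h.fp
        torsionFree := fun x n hn hx => h.tf hn hx
        perfect := h.perfect hz hz2
        centerCyclic := h.center_cyclic hz hz2
        centerInfinite := center_infinite (fun x n hn hx => h.tf hn hx) hc
        quotFP := h.quot_fp hz hz2
        quotInfinite := h.quot_infinite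
        quotSimple := h.quot_simple hz hz2
        quotTorsion := h.quot_torsion hz hz2
        quotProper := h.quot_proper hz hz2 }
  · intro d
    have hc : center G ≠ ⊥ := by
      intro h1
      have := d.centerInfinite
      rw [h1] at this
      exact not_finite (⊥ : Subgroup G)
    refine ⟨exotic_of_datum d.fp d.torsionFree d.perfect d.centerCyclic hc d.quotInfinite
      d.quotProper, center G, inferInstance, hc, ?_⟩
    intro a _ b hb
    exact mem_center_iff.1 hb a

theorem normal_case (G : Type u) [Group G] (h : Exotic G) :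
    (∃ K : Subgroup G, K ≠ ⊤ ∧ K.FiniteIndex) ∨
      (_root_.commutator G = ⊤ ∧ ∀ N : Subgroup G, N.Normal → N ≠ ⊤ → N.FG → N ≤ center G) := by
  by_cases hK : ∃ K : Subgroup G, K ≠ ⊤ ∧ K.FiniteIndex
  · exact Or.inl hK
  right
  have hfg : Group.FG G := by
    obtain ⟨n, φ, hφ, -⟩ := h.fp.out
    exact Group.fg_of_surjective hφ
  refine ⟨(perfect_or_finiteIndex hfg).resolve_right hK, fun N hN ht hN2 => ?_⟩
  exact (central_or_finiteIndex (N := N) ((Group.fg_iff_subgroup_fg N).2 hN2)
    (h.proper N ht)).resolve_right hK

end Pool.Agent.PF74
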